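import Pool.Agent.Helper84.PL.Goals

/-!
# Project PL, packet STR: bounded stretch
-/

set_option autoImplicit false

namespace Pool.Agent.Helper15.PL

open Pool.Agent.Helper84.PL

theorem div_step {c : ℕ} (hc : 0 < c) {a b : ℤ} (h1 : 1 ≤ b - a) (h2 : b - a ≤ c) :
    b / c = a / c ∨ b / c = a / c + 1 := by
  have hc' : (0 : ℤ) < c := by exact_mod_cast hc
  have e1 : a / c ≤ b / c := Int.ediv_le_ediv hc' (by omega)
  have e2 : b / c ≤ (a + c) / c := Int.ediv_le_ediv hc' (by omega)
  rw [Int.add_ediv_of_dvd_right (dvd_refl _), Int.ediv_self hc'.ne'] at e2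
  omega

theorem str : G_STR := by
  intro V _ c r hc hr
  have hc' : (0 : ℤ) < c := by exact_mod_cast hc
  have key : ∀ u w : V, u ⋖ w → (decide (Even (r u / (c : ℤ))) = decide (Even (r w / (c : ℤ))) →
      r w / (c : ℤ) = r u / c) ∧ (decide (Even (r u / (c : ℤ))) ≠ decide (Even (r w / (c : ℤ))) →
      r w / (c : ℤ) = r u / c + 1) := by
    intro u w h
    obtain ⟨h1, h2⟩ := hr u w h
    rcases div_step hc h1 h2 with h3 | h3
    · refine ⟨fun _ => h3, fun h4 => ?_⟩
      rw [h3] at h4
      exact absurd rfl h4
    · refine ⟨fun h4 => ?_, fun _ => h3⟩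
      rw [h3] at h4
      have h5 : (Even (r u / (c : ℤ)) ↔ Even (r u / (c : ℤ) + 1)) := by
        constructor
        · intro h6
          have h7 := h4.symm.trans (decide_eq_true h6)
          exact of_decide_eq_true h7
        · intro h6
          have h7 := h4.trans (decide_eq_true h6)
          exact of_decide_eq_true h7
      rw [Int.even_add_one] at h5
      exact absurd h5 (by tauto)
  refine ⟨fun v => decide (Even (r v / (c : ℤ))), ?_, ?_⟩
  · intro u v n h
    have hM : r v / (c : ℤ) = r u / c ∧ r u + n ≤ r v := by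
      induction h with
      | refl => exact ⟨rfl, by simp⟩
      | step v w n h hv hχ ih =>
        obtain ⟨h1, h2⟩ := hr v w hv
        refine ⟨((key v w hv).1 hχ).trans ih.1, ?_⟩
        push_cast
        omega
    have e1 := Int.emod_add_mul_ediv (r v) c
    have e2 := Int.emod_add_mul_ediv (r u) c
    have e3 := Int.emod_lt_of_pos (r v) hc'
    have e4 := Int.emod_nonneg (r u) hc'.ne'
    rw [hM.1] at e1
    omega
  · have hC : ∀ (u v : V) (p : ℕ), Ch (fun v => decide (Even (r v / (c : ℤ)))) u v p →
        r v / (c : ℤ) = r u / c + p := by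
      intro u v p h
      induction h with
      | refl => simp
      | same v w n h hv hχ ih => rw [(key v w hv).1 hχ, ih]
      | diff v w n h hv hχ ih =>
        rw [(key v w hv).2 hχ, ih]
        push_cast
        ring
    intro u v p q hp hq _
    have h1 := hC u v p hp
    have h2 := hC u v q hq
    omega

end Pool.Agent.Helper15.PL
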